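import Pool.Agent.H445.RE.D

/-!
# MP_4aec10_nt: the exact dimension of the set of the points of `Lie(𝔾_m^s × E^n)` which violate the conjecture

Let `E : y² = 4 x³ - g₂ x - g₃` be an elliptic curve over `\bar ℚ` with the lattice `L.lattice = ℤ ω₁ + ℤ ω₂`, let `k`
be the field `ℚ ⊗ End(E)` and `G = 𝔾_m^s × E^n`. Let `F` be the algebraic closure of the field
`ℚ(2πi, ω₁, ω₂, η₁, η₂)` of the periods. For `r = (z, t)` in `Lie G = ℂ^n × ℂ^s` the components of `r` and `exp_G(r)`
are the numbers `z_i, ℘(z_i), ℘'(z_i)` (only `z_i` if `z_i` is in the lattice) and `t_k, e^{t_k}`. Since the connected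
algebraic subgroups of `G` are products of subgroups of `𝔾_m^s` and `E^n`, the number `d(exp_G(r))` is the
dimension of the `k`-span of the `z_i` modulo the logarithms of the algebraic points of `E` plus the dimension of the
`ℚ`-span of the `t_k` modulo the logarithms of the algebraic numbers.

Let `R(n,s,m)` be the set of all `r` in `Lie G` with `trdeg_F F(r, exp_G(r)) ≤ d(exp_G(r)) - m`. The conjecture
says that `R(n,s,m)` is empty for `m ≥ 1`. We prove, for every `E`:

* The Hausdorff dimension of `R(n,s,m)` is exactly `2 d`, where `d` is the largest number `i + k` for which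
  `R(n - i, s - k, m + i + k)` is not empty (`0` if `R(n,s,m)` is empty), and `d ≤ (n + s - m) / 2`.
* `R(n,s,m)` is countable if and only if `R(n - 1, s, m + 1)` (for `n ≥ 1`) and `R(n, s - 1, m + 1)` (for
  `s ≥ 1`) are empty.
* For every `n`, `m`, `d`: `R(n, s, m + d + 1)` is empty for all `s` if and only if for all `s` the dimension of
  `R(n,s,m)` is at most `2 d`; the same with the roles of `n` and `s` exchanged. For `m = d = 0`: the conjecture
  holds for all groups `𝔾_m^s × E^n` if and only if for all `n` and `s` there are only countably many `r` with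
  `trdeg_F F(r, exp_G(r)) ≤ d(exp_G(r))`.

## The proof (in `Pool.Agent.H445`)

As for `MP_8da9ea_nt.DimensionFormula` (Ax's theorem for a space of derivations, countable closed fields, the
implicit function theorem), but over the countable field `F`, for the functions `℘` without `ζ`, and with linear
independence modulo the countable spaces of all logarithms of algebraic points (`RE/A`, `RE/B`, `RE/C`, `RE/D`). The
theorems of Schneider and of Hermite and Lindemann give sufficiently many algebraic points and exponents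
which are independent modulo these spaces.
-/

set_option autoImplicit false

open Set Module
open scoped PeriodPair

noncomputable section

namespace Pool.Agent.Results.MP_4aec10_nt.DimensionFormula

open Pool.Agent.H445.RE (VE LevE BaseE AL BL mem_AL mem_BL base_AB dimVE countableVE lowerVE LevE_bdd mem_LevE
  VE_extend VE_mono VE_bound mem_VE EB' trdeg_iff_F rb countable_alg)
open Pool.Agent.H445 (dimQ)
open Pool.Agent.TH813.Rel (MK subset_cl rk_le_of_subset_cl)

/-- The Weierstrass zeta function (the summand of `l = 0` is `1 / z`). -/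
def ζ (L : PeriodPair) (z : ℂ) : ℂ := ∑' l : L.lattice, (1 / (z - l) + 1 / l + z / l ^ 2)

/-- The field `ℚ ⊗ End(E)`, as a subfield of `ℂ`; see `mem_k`. -/
abbrev k (L : PeriodPair) : IntermediateField ℚ ℂ := Pool.Agent.TH813.Ell.kL L

/-- `k` consists of the numbers `c` such that `n c` maps the lattice to itself for some `n > 0`. -/
theorem mem_k {L : PeriodPair} {c : ℂ} :
    c ∈ k L ↔ ∃ n : ℕ, 0 < n ∧ ∀ w ∈ L.lattice, (n * c) * w ∈ L.lattice := Iff.rfl

/-- The field `ℚ(2πi, ω₁, ω₂, η₁, η₂)` of the periods, `ηᵢ = 2 ζ(ωᵢ / 2)`. -/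
def periodField (L : PeriodPair) : IntermediateField ℚ ℂ :=
  IntermediateField.adjoin ℚ {2 * (Real.pi : ℂ) * Complex.I, L.ω₁, L.ω₂, 2 * ζ L (L.ω₁ / 2), 2 * ζ L (L.ω₂ / 2)}

/-- Its algebraic closure `F` in `ℂ`. -/
def F (L : PeriodPair) : IntermediateField ℚ ℂ := (algebraicClosure (periodField L) ℂ).restrictScalars ℚ

/-- The `k`-space of the logarithms of the algebraic points of `E`. -/
def ellLogs (L : PeriodPair) : Submodule (k L) ℂ :=
  Submodule.span (k L) {z | z ∈ L.lattice ∨ IsAlgebraic ℚ (℘[L] z)}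

/-- The `ℚ`-space of the logarithms of the algebraic numbers. -/
def logs : Submodule ℚ ℂ := Submodule.span ℚ {t | IsAlgebraic ℚ (Complex.exp t)}

/-- The components of `r = (z, t)` and of `exp_G(r)`. -/
def components (L : PeriodPair) {n s : ℕ} (z : Fin n → ℂ) (t : Fin s → ℂ) : Set ℂ :=
  {x | ∃ i, x = z i ∨ (z i ∉ L.lattice ∧ (x = ℘[L] (z i) ∨ x = ℘'[L] (z i)))} ∪
    {x | ∃ k, x = t k ∨ x = Complex.exp (t k)}

/-- The dimension of the `K`-span of the numbers `z_i` modulo the space `A`. -/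
def rank {K : Type} [Field K] [Module K ℂ] (A : Submodule K ℂ) {n : ℕ} (z : Fin n → ℂ) : ℕ :=
  finrank K (Submodule.span K (Set.range fun i => A.mkQ (z i)))

/-- The dimension `d(exp_G(r))`: the dimension of the `k`-span of the `z_i` modulo the logarithms of algebraic
points plus the dimension of the `ℚ`-span of the `t_k` modulo the logarithms of algebraic numbers. -/
def d (L : PeriodPair) {n s : ℕ} (z : Fin n → ℂ) (t : Fin s → ℂ) : ℕ :=
  rank (ellLogs L) z + rank logs t

/-- The set `R(n,s,m)` of the `r = (z, t)` with `trdeg_F F(r, exp_G(r)) + m ≤ d(exp_G(r))`. -/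
def R (L : PeriodPair) (n s m : ℕ) : Set ((Fin n → ℂ) × (Fin s → ℂ)) :=
  {r | Algebra.trdeg (F L) (IntermediateField.adjoin (F L) (components L r.1 r.2)) + m ≤ (d L r.1 r.2 : Cardinal)}

/-- The largest `i + k` such that `R(n - i, s - k, m + i + k)` is not empty (zero if there is none). -/
def level (L : PeriodPair) (n s m : ℕ) : ℕ :=
  sSup {e | ∃ i k, i ≤ n ∧ k ≤ s ∧ i + k = e ∧ (R L (n - i) (s - k) (m + e)).Nonempty}

variable {L : PeriodPair} {h2 : IsAlgebraic ℚ L.g₂} {h3 : IsAlgebraic ℚ L.g₃}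

theorem ellLogs_eq : ellLogs L = AL L h2 h3 := by
  apply le_antisymm
  · rw [ellLogs, Submodule.span_le]
    intro z hz
    exact (mem_AL (h2 := h2) (h3 := h3)).2 hz
  · intro z hz
    exact Submodule.subset_span ((mem_AL (h2 := h2) (h3 := h3)).1 hz)

theorem logs_eq : logs = BL := by
  apply le_antisymm
  · rw [logs, Submodule.span_le]
    intro z hz
    exact mem_BL.2 hz
  · intro z hz
    exact Submodule.subset_span (mem_BL.1 hz)

theorem mem_F {x : ℂ} : x ∈ F L ↔ IsAlgebraic (periodField L) x := mem_algebraicClosure_iff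

theorem F_alg {x : ℂ} (hx : IsAlgebraic ℚ x) : x ∈ F L :=
  mem_F.2 (hx.extendScalars (algebraMap ℚ (periodField L)).injective)

theorem base (h2 : IsAlgebraic ℚ L.g₂) (h3 : IsAlgebraic ℚ L.g₃) : BaseE L (F L) (AL L h2 h3) BL := by
  apply base_AB
  · refine (countable_alg (S := {2 * (Real.pi : ℂ) * Complex.I, L.ω₁, L.ω₂, 2 * ζ L (L.ω₁ / 2),
      2 * ζ L (L.ω₂ / 2)}) (Set.toFinite _).countable).mono fun x hx => mem_F.1 hx
  · exact fun x hx => F_alg hx

theorem rank_eq (h2 : IsAlgebraic ℚ L.g₂) (h3 : IsAlgebraic ℚ L.g₃) {n s : ℕ} (z : Fin n → ℂ) (t : Fin s → ℂ) :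
    (MK (F L)).eRk (components L z t) = (MK (F L)).eRk (Pool.Agent.Y776.ET t ∪ EB' L false z) := by
  apply le_antisymm
  · apply rk_le_of_subset_cl
    rintro x (⟨i, rfl | ⟨hi, rfl | rfl⟩⟩ | ⟨i, rfl | rfl⟩)
    · exact subset_cl _ (Or.inr ⟨i, Or.inl rfl⟩)
    · exact subset_cl _ (Or.inr ⟨i, Or.inr ⟨hi, rfl⟩⟩)
    · rw [← Pool.Agent.Y685.mem_clo_iff]
      intro δ hδ hS
      have e1 : δ (℘[L] (z i)) = 0 := hS _ (Or.inr ⟨i, Or.inr ⟨hi, rfl⟩⟩)
      exact (Pool.Agent.TH813.Ell.wp_killed (hδ _ (F_alg h2)) (hδ _ (F_alg h3))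
        (Pool.Agent.Y685.om_of_kill e1) hi).2
    · exact subset_cl _ (Or.inl (Or.inl ⟨i, rfl⟩))
    · exact subset_cl _ (Or.inl (Or.inr ⟨i, rfl⟩))
  · apply (MK (F L)).eRk_mono
    rintro x ((⟨i, rfl⟩ | ⟨i, rfl⟩) | ⟨i, rfl | ⟨hi, rfl⟩⟩)
    · exact Or.inr ⟨i, Or.inl rfl⟩
    · exact Or.inr ⟨i, Or.inr rfl⟩
    · exact Or.inl ⟨i, Or.inl rfl⟩
    · exact Or.inl ⟨i, Or.inr ⟨hi, Or.inl rfl⟩⟩

theorem mem_R (h2 : IsAlgebraic ℚ L.g₂) (h3 : IsAlgebraic ℚ L.g₃) {n s m : ℕ} {w : Fin (n + s) → ℂ} :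
    ((fun i => w (Fin.castAdd s i), fun i => w (Fin.natAdd n i)) : (Fin n → ℂ) × (Fin s → ℂ)) ∈ R L n s m ↔
      w ∈ VE L false (F L) (AL L h2 h3) BL n s m := by
  rw [mem_VE]
  have key : d L (fun i => w (Fin.castAdd s i)) (fun i => w (Fin.natAdd n i)) =
      dimQ BL (fun i => w (Fin.natAdd n i)) + rb false * dimQ (AL L h2 h3) (fun i => w (Fin.castAdd s i)) := by
    rw [d, logs_eq, ellLogs_eq (h2 := h2) (h3 := h3)]
    simp only [rb, dimQ, rank, one_mul]
    rw [add_comm]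
  change Algebra.trdeg (F L) (IntermediateField.adjoin (F L) (components L _ _)) + m ≤ (d L _ _ : Cardinal) ↔ _
  rw [trdeg_iff_F, rank_eq h2 h3, key]

theorem image_R (h2 : IsAlgebraic ℚ L.g₂) (h3 : IsAlgebraic ℚ L.g₃) (n s m : ℕ) :
    (Fin.appendIsometry (α := ℂ) n s) '' R L n s m = VE L false (F L) (AL L h2 h3) BL n s m := by
  ext v
  constructor
  · rintro ⟨⟨z, w⟩, h, rfl⟩
    rw [← mem_R h2 h3]
    change _ ∈ _ at h
    have e1 : (fun i => (Fin.appendIsometry (α := ℂ) n s) (z, w) (Fin.castAdd s i)) = z :=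
      funext fun i => Fin.append_left z w i
    have e2 : (fun i => (Fin.appendIsometry (α := ℂ) n s) (z, w) (Fin.natAdd n i)) = w :=
      funext fun i => Fin.append_right z w i
    rw [e1, e2]
    exact h
  · intro h
    exact ⟨_, (mem_R h2 h3).2 h, Pool.Agent.H445.append_eta v⟩

theorem dimH_R (h2 : IsAlgebraic ℚ L.g₂) (h3 : IsAlgebraic ℚ L.g₃) (n s m : ℕ) :
    dimH (R L n s m) = dimH (VE L false (F L) (AL L h2 h3) BL n s m) := by
  rw [← image_R h2 h3, IsometryEquiv.dimH_image]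

theorem countable_R (h2 : IsAlgebraic ℚ L.g₂) (h3 : IsAlgebraic ℚ L.g₃) (n s m : ℕ) :
    (R L n s m).Countable ↔ (VE L false (F L) (AL L h2 h3) BL n s m).Countable := by
  rw [← image_R h2 h3]
  exact ⟨fun h => h.image _,
    fun h => Set.countable_of_injective_of_countable_image (Fin.appendIsometry (α := ℂ) n s).injective.injOn h⟩

theorem nonempty_R (h2 : IsAlgebraic ℚ L.g₂) (h3 : IsAlgebraic ℚ L.g₃) (n s m : ℕ) :
    (R L n s m).Nonempty ↔ (VE L false (F L) (AL L h2 h3) BL n s m).Nonempty := by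
  rw [← image_R h2 h3, image_nonempty]

theorem Lev_eq (h2 : IsAlgebraic ℚ L.g₂) (h3 : IsAlgebraic ℚ L.g₃) (n s m : ℕ) :
    LevE L false (F L) (AL L h2 h3) BL n s m =
    {e | ∃ i k, i ≤ n ∧ k ≤ s ∧ i + k = e ∧ (R L (n - i) (s - k) (m + e)).Nonempty} := by
  ext e
  rw [mem_LevE (base h2 h3)]
  simp only [mem_ofPred_eq, nonempty_R h2 h3]

theorem dim_eq (h2 : IsAlgebraic ℚ L.g₂) (h3 : IsAlgebraic ℚ L.g₃) (n s m : ℕ) :
    dimH (R L n s m) = (2 * level L n s m : ℕ) := by
  rw [dimH_R h2 h3, level, ← Lev_eq h2 h3]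
  exact dimVE (base h2 h3)

theorem bound (h2 : IsAlgebraic ℚ L.g₂) (h3 : IsAlgebraic ℚ L.g₃) {n s m : ℕ} (h : (R L n s m).Nonempty) :
    m ≤ n + s := by
  rw [nonempty_R h2 h3] at h
  have := VE_bound h
  simp only [rb, one_mul] at this
  omega

theorem mono (h2 : IsAlgebraic ℚ L.g₂) (h3 : IsAlgebraic ℚ L.g₃) {n s m m' : ℕ} (hm : m ≤ m')
    (h : (R L n s m').Nonempty) : (R L n s m).Nonempty := by
  rw [nonempty_R h2 h3] at h ⊢
  exact h.mono (VE_mono hm)

theorem extend (h2 : IsAlgebraic ℚ L.g₂) (h3 : IsAlgebraic ℚ L.g₃) {n s n' s' m : ℕ} (hn : n ≤ n') (hs : s ≤ s')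
    (h : (R L n s m).Nonempty) : (R L n' s' m).Nonempty := by
  rw [nonempty_R h2 h3] at h ⊢
  exact VE_extend (base h2 h3) hn hs h

theorem lower (h2 : IsAlgebraic ℚ L.g₂) (h3 : IsAlgebraic ℚ L.g₃) {n s m i k : ℕ} (hi : i ≤ n) (hk : k ≤ s)
    (h : (R L (n - i) (s - k) (m + (i + k))).Nonempty) : ((2 * (i + k) : ℕ) : ENNReal) ≤ dimH (R L n s m) := by
  rw [dimH_R h2 h3]
  apply lowerVE (base h2 h3)
  rw [Lev_eq h2 h3]
  exact ⟨i, k, hi, hk, rfl, h⟩

theorem level_spec (h2 : IsAlgebraic ℚ L.g₂) (h3 : IsAlgebraic ℚ L.g₃) (n s m : ℕ) : level L n s m = 0 ∨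
    ∃ i k, i ≤ n ∧ k ≤ s ∧ i + k = level L n s m ∧ (R L (n - i) (s - k) (m + (i + k))).Nonempty := by
  rcases Set.eq_empty_or_nonempty
    {e | ∃ i k, i ≤ n ∧ k ≤ s ∧ i + k = e ∧ (R L (n - i) (s - k) (m + e)).Nonempty} with h | h
  · left
    rw [level, h, csSup_empty]
    rfl
  · right
    have h1 := Nat.sSup_mem h (by rw [← Lev_eq h2 h3]; exact LevE_bdd)
    obtain ⟨i, k, h4, h5, h6, h7⟩ := h1
    refine ⟨i, k, h4, h5, h6, ?_⟩
    rw [h6]
    exact h7

theorem countable_iff (h2 : IsAlgebraic ℚ L.g₂) (h3 : IsAlgebraic ℚ L.g₃) (n s m : ℕ) : (R L n s m).Countable ↔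
    (1 ≤ n → R L (n - 1) s (m + 1) = ∅) ∧ (1 ≤ s → R L n (s - 1) (m + 1) = ∅) := by
  rw [countable_R h2 h3, countableVE (base h2 h3), Lev_eq h2 h3]
  constructor
  · intro h
    constructor
    · intro hn
      by_contra hne
      exact h ⟨1, 0, hn, Nat.zero_le _, rfl, nonempty_iff_ne_empty.2 hne⟩
    · intro hs
      by_contra hne
      exact h ⟨0, 1, Nat.zero_le _, hs, rfl, nonempty_iff_ne_empty.2 hne⟩
  · rintro ⟨h1, h2⟩ ⟨i, k, hi, hk, hik, h⟩
    have h0 : i = 1 ∧ k = 0 ∨ i = 0 ∧ k = 1 := by omega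
    rcases h0 with ⟨rfl, rfl⟩ | ⟨rfl, rfl⟩
    · have h3 := h1 hi
      rw [Nat.sub_zero, h3] at h
      exact not_nonempty_empty h
    · have h3 := h2 hk
      rw [Nat.sub_zero, h3] at h
      exact not_nonempty_empty h

theorem dim_le (h2 : IsAlgebraic ℚ L.g₂) (h3 : IsAlgebraic ℚ L.g₃) {n s m e : ℕ} (h : R L n s (m + e + 1) = ∅) :
    dimH (R L n s m) ≤ (2 * e : ℕ) := by
  rw [dim_eq h2 h3]
  have h1 : level L n s m ≤ e := by
    rcases level_spec h2 h3 n s m with h0 | ⟨i, k, hi, hk, hik, hne⟩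
    · omega
    · by_contra hcon
      have h4 := extend h2 h3 (n' := n) (s' := s) (Nat.sub_le _ _) (Nat.sub_le _ _) hne
      have h5 := mono h2 h3 (m := m + e + 1) (by omega) h4
      rw [h] at h5
      exact not_nonempty_empty h5
  exact_mod_cast Nat.mul_le_mul_left 2 h1

theorem empty_s (h2 : IsAlgebraic ℚ L.g₂) (h3 : IsAlgebraic ℚ L.g₃) {n s m e : ℕ}
    (h : dimH (R L n (s + (e + 1)) m) ≤ (2 * e : ℕ)) : R L n s (m + e + 1) = ∅ := by
  by_contra hne
  have h1 := lower h2 h3 (n := n) (s := s + (e + 1)) (m := m) (i := 0) (k := e + 1) (Nat.zero_le _) (by omega) (by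
    rw [Nat.add_sub_cancel, Nat.sub_zero, zero_add, ← add_assoc]
    exact nonempty_iff_ne_empty.2 hne)
  have h4 := h1.trans h
  have h5 : 2 * (0 + (e + 1)) ≤ 2 * e := by exact_mod_cast h4
  omega

theorem empty_n (h2 : IsAlgebraic ℚ L.g₂) (h3 : IsAlgebraic ℚ L.g₃) {n s m e : ℕ}
    (h : dimH (R L (n + (e + 1)) s m) ≤ (2 * e : ℕ)) : R L n s (m + e + 1) = ∅ := by
  by_contra hne
  have h1 := lower h2 h3 (n := n + (e + 1)) (s := s) (m := m) (i := e + 1) (k := 0) (by omega) (Nat.zero_le _) (by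
    rw [Nat.add_sub_cancel, Nat.sub_zero, add_zero, ← add_assoc]
    exact nonempty_iff_ne_empty.2 hne)
  have h4 := h1.trans h
  have h5 : 2 * (e + 1 + 0) ≤ 2 * e := by exact_mod_cast h4
  omega

theorem countable_of (h2 : IsAlgebraic ℚ L.g₂) (h3 : IsAlgebraic ℚ L.g₃) {n s m : ℕ} (h : R L n s (m + 1) = ∅) :
    (R L n s m).Countable := by
  rw [countable_iff h2 h3]
  constructor
  · intro hn
    by_contra hne
    have h1 := extend h2 h3 (n' := n) (s' := s) (Nat.sub_le n 1) le_rfl (nonempty_iff_ne_empty.2 hne)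
    rw [h] at h1
    exact not_nonempty_empty h1
  · intro hn
    by_contra hne
    have h1 := extend h2 h3 (n' := n) (s' := s) le_rfl (Nat.sub_le s 1) (nonempty_iff_ne_empty.2 hne)
    rw [h] at h1
    exact not_nonempty_empty h1

/-- The dimension of `R(n,s,m)` and a bound for it. -/
def Dimension (L : PeriodPair) : Prop :=
  ∀ n s m : ℕ, dimH (R L n s m) = (2 * level L n s m : ℕ) ∧ level L n s m ≤ (n + s - m) / 2

/-- The criterion for countability. -/
def Countability (L : PeriodPair) : Prop :=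
  (∀ n s m : ℕ, (R L n s m).Countable ↔
    (1 ≤ n → R L (n - 1) s (m + 1) = ∅) ∧ (1 ≤ s → R L n (s - 1) (m + 1) = ∅)) ∧
  ∀ n s m : ℕ, n + s ≤ m + 1 → (R L n s m).Countable

/-- The conjecture with bounded error, for `A(a, b, c) = R(a, b, c)` or `A(a, b, c) = R(b, a, c)`: for a fixed `a`,
it holds for all `b` if and only if the dimensions are bounded, and, without error, if and only if the sets are
countable. -/
def Criterion {X : ℕ → ℕ → Type} [∀ a b, EMetricSpace (X a b)] (A : ∀ a b : ℕ, ℕ → Set (X a b)) : Prop :=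
  ∀ a m : ℕ, (∀ e, (∀ b, A a b (m + e + 1) = ∅) ↔ ∀ b, dimH (A a b m) ≤ (2 * e : ℕ)) ∧
    ((∀ b, A a b (m + 1) = ∅) ↔ ∀ b, (A a b m).Countable)

theorem result (L : PeriodPair) (h2 : IsAlgebraic ℚ L.g₂) (h3 : IsAlgebraic ℚ L.g₃) :
    -- the dimension
    Dimension L ∧
    -- countability
    Countability L ∧
    -- the conjecture, for a fixed number of points
    Criterion (fun n s => R L n s) ∧
    -- the conjecture, for a fixed number of exponents
    Criterion (fun s n => R L n s) := by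
  refine ⟨fun n s m => ⟨dim_eq h2 h3 n s m, ?_⟩, ⟨countable_iff h2 h3, fun n s m h => ?_⟩,
    fun n m => ⟨fun e => ⟨fun h s => dim_le h2 h3 (h s), fun h s => empty_s h2 h3 (h _)⟩,
      fun h s => countable_of h2 h3 (h s), fun h s => ?_⟩,
    fun s m => ⟨fun e => ⟨fun h n => dim_le h2 h3 (h n), fun h n => empty_n h2 h3 (h _)⟩,
      fun h n => countable_of h2 h3 (h n), fun h n => ?_⟩⟩
  · rcases level_spec h2 h3 n s m with h0 | ⟨i, k, hi, hk, hik, hne⟩
    · omega
    · have := bound h2 h3 hne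
      omega
  · rw [countable_iff h2 h3]
    constructor
    · intro hn
      by_contra hne
      have := bound h2 h3 (nonempty_iff_ne_empty.2 hne)
      omega
    · intro hn
      by_contra hne
      have := bound h2 h3 (nonempty_iff_ne_empty.2 hne)
      omega
  · exact ((countable_iff h2 h3 n (s + 1) m).1 (h (s + 1))).2 (by omega)
  · exact ((countable_iff h2 h3 (n + 1) s m).1 (h (n + 1))).1 (by omega)

end Pool.Agent.Results.MP_4aec10_nt.DimensionFormula
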